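import Mathlib
import Pool.Agent.H651R2.CB.All
import Pool.Agent.H651R2.CB.RES
set_option autoImplicit false

/-!
# All polynomials of degree at most two on the discrete cube: the scalar case

`‖f - E f‖₂ ≤ 2 ‖f‖₁` for every polynomial `f` of degree at most `2`, by homogenising with one
more coordinate (uses the main inequality of `Pool.Agent.H651R2.CB`).
-/

namespace Y840HQ

open H651CB

/-- The symmetric matrix with the entries `a i j`, `i < j`. -/
def symm {n : ℕ} (a : Fin n → Fin n → ℝ) : Fin n → Fin n → ℝ :=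
  fun i j => if i < j then a i j else if j < i then a j i else 0

/-- The matrix of the homogenised quadratic form. -/
def hat {n : ℕ} (b : Fin n → ℝ) (A : Fin n → Fin n → ℝ) : Fin (n + 1) → Fin (n + 1) → ℝ :=
  Fin.cons (Fin.cons 0 b) (fun i => Fin.cons (b i) (A i))

lemma symm_symZ {n : ℕ} (a : Fin n → Fin n → ℝ) : SymZ (symm a) := by
  constructor
  · intro i j
    simp only [symm]
    rcases lt_trichotomy i j with h | h | h
    · rw [if_pos h, if_neg h.asymm, if_pos h]
    · subst h; rfl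
    · rw [if_neg h.asymm, if_pos h, if_pos h]
  · intro i
    simp [symm]

lemma qd_symm {n : ℕ} (a : Fin n → Fin n → ℝ) (x : Cube n) :
    qd (symm a) x = ∑ i, ∑ j, if i < j then a i j * (sg x i * sg x j) else 0 := by
  have e1 : ∀ i j, symm a i j * (sg x i * sg x j) =
      (if i < j then a i j * (sg x i * sg x j) else 0) +
      (if j < i then a j i * (sg x j * sg x i) else 0) := by
    intro i j
    simp only [symm]
    rcases lt_trichotomy i j with h | h | h
    · rw [if_pos h, if_pos h, if_neg h.asymm]; ring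
    · subst h; simp
    · rw [if_neg h.asymm, if_pos h, if_neg h.asymm, if_pos h]; ring
  unfold qd
  simp_rw [e1, Finset.sum_add_distrib]
  rw [Finset.sum_comm (f := fun i j => if j < i then a j i * (sg x j * sg x i) else 0)]
  ring

lemma sq_symm {n : ℕ} (a : Fin n → Fin n → ℝ) :
    1 / 2 * ∑ i, ∑ j, symm a i j ^ 2 = ∑ i, ∑ j, if i < j then a i j ^ 2 else 0 := by
  have e1 : ∀ i j, symm a i j ^ 2 =
      (if i < j then a i j ^ 2 else 0) + (if j < i then a j i ^ 2 else 0) := by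
    intro i j
    simp only [symm]
    rcases lt_trichotomy i j with h | h | h
    · rw [if_pos h, if_pos h, if_neg h.asymm]; ring
    · subst h; simp
    · rw [if_neg h.asymm, if_pos h, if_neg h.asymm, if_pos h]; ring
  simp_rw [e1, Finset.sum_add_distrib]
  rw [Finset.sum_comm (f := fun i j => if j < i then a j i ^ 2 else 0)]
  ring

lemma hat_symZ {n : ℕ} (b : Fin n → ℝ) (A : Fin n → Fin n → ℝ) (hA : SymZ A) :
    SymZ (hat b A) := by
  constructor
  · intro i j
    refine Fin.cases ?_ (fun i => ?_) i <;> refine Fin.cases ?_ (fun j => ?_) j <;>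
      simp [hat, hA.1]
  · intro i
    refine Fin.cases ?_ (fun i => ?_) i <;> simp [hat, hA.2]

lemma sq_hat {n : ℕ} (b : Fin n → ℝ) (A : Fin n → Fin n → ℝ) :
    ∑ i, ∑ j, hat b A i j ^ 2 = 2 * ∑ i, b i ^ 2 + ∑ i, ∑ j, A i j ^ 2 := by
  simp only [Fin.sum_univ_succ, hat, Fin.cons_zero, Fin.cons_succ, Finset.sum_add_distrib]
  ring

lemma sg_cons_zero {n : ℕ} (y : ℤˣ) (x : Cube n) :
    sg (Fin.cons y x : Cube (n + 1)) 0 = ((y : ℤ) : ℝ) := by simp [sg]

lemma sg_cons_succ {n : ℕ} (y : ℤˣ) (x : Cube n) (i : Fin n) :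
    sg (Fin.cons y x : Cube (n + 1)) i.succ = sg x i := by simp [sg]

lemma qd_hat {n : ℕ} (b : Fin n → ℝ) (A : Fin n → Fin n → ℝ) (y : ℤˣ) (x : Cube n) :
    qd (hat b A) (Fin.cons y x : Cube (n + 1)) = ((y : ℤ) : ℝ) * lin b x + qd A x := by
  have h1 : ∑ j, b j * (((y : ℤ) : ℝ) * sg x j) = ((y : ℤ) : ℝ) * lin b x := by
    unfold lin
    rw [Finset.mul_sum]
    exact Finset.sum_congr rfl fun j _ => by ring
  have h2 : ∑ j, b j * (sg x j * ((y : ℤ) : ℝ)) = ((y : ℤ) : ℝ) * lin b x := by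
    unfold lin
    rw [Finset.mul_sum]
    exact Finset.sum_congr rfl fun j _ => by ring
  unfold qd
  simp only [Fin.sum_univ_succ, hat, Fin.cons_zero, Fin.cons_succ, Finset.sum_add_distrib,
    sg_cons_zero, sg_cons_succ]
  rw [h1, h2]
  ring

lemma sg_neg {n : ℕ} (x : Cube n) (i : Fin n) : sg (-x) i = - sg x i := by
  simp [sg]

lemma lin_neg {n : ℕ} (b : Fin n → ℝ) (x : Cube n) : lin b (-x) = - lin b x := by
  unfold lin
  simp only [sg_neg, mul_neg, Finset.sum_neg_distrib]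

lemma qd_neg {n : ℕ} (A : Fin n → Fin n → ℝ) (x : Cube n) : qd A (-x) = qd A x := by
  unfold qd
  simp only [sg_neg, mul_neg, neg_mul, neg_neg]

lemma sum_cube_neg {n : ℕ} (F : Cube n → ℝ) : ∑ x, F (-x) = ∑ x, F x :=
  Equiv.sum_comp (Equiv.neg (Cube n)) F

lemma sum_cube_succ {n : ℕ} (F : Cube (n + 1) → ℝ) :
    ∑ z, F z = ∑ x : Cube n, F (Fin.cons 1 x) + ∑ x : Cube n, F (Fin.cons (-1) x) := by
  rw [← (Fin.consEquiv (fun _ : Fin (n + 1) => ℤˣ)).sum_comp, Fintype.sum_prod_type]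
  have : (Finset.univ : Finset ℤˣ) = {1, -1} := UnitsInt.univ
  rw [this, Finset.sum_pair (by decide)]
  rfl

/-- the basic identity: a function of the homogenised form -/
lemma sum_hat {n : ℕ} (b : Fin n → ℝ) (A : Fin n → Fin n → ℝ) (G : ℝ → ℝ) :
    ∑ z, G (qd (hat b A) z) = 2 * ∑ x : Cube n, G (lin b x + qd A x) := by
  rw [sum_cube_succ]
  have h1 : ∑ x : Cube n, G (qd (hat b A) (Fin.cons 1 x : Cube (n + 1)))
      = ∑ x : Cube n, G (lin b x + qd A x) := by
    refine Finset.sum_congr rfl fun x _ => ?_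
    rw [qd_hat]; simp
  have h2 : ∑ x : Cube n, G (qd (hat b A) (Fin.cons (-1) x : Cube (n + 1)))
      = ∑ x : Cube n, G (lin b x + qd A x) := by
    rw [← sum_cube_neg (fun x => G (lin b x + qd A x))]
    refine Finset.sum_congr rfl fun x _ => ?_
    rw [qd_hat, lin_neg, qd_neg]; simp
  rw [h1, h2]; ring

/-- The value of the polynomial without its constant term. -/
noncomputable def pol {n : ℕ} (b : Fin n → ℝ) (a : Fin n → Fin n → ℝ) (x : Cube n) : ℝ :=
  ∑ i, b i * sg x i + ∑ i, ∑ j, if i < j then a i j * (sg x i * sg x j) else 0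

/-- The variance of the polynomial in terms of its coefficients. -/
noncomputable def vari {n : ℕ} (b : Fin n → ℝ) (a : Fin n → Fin n → ℝ) : ℝ :=
  ∑ i, b i ^ 2 + ∑ i, ∑ j, if i < j then a i j ^ 2 else 0

lemma pol_eq {n : ℕ} (b : Fin n → ℝ) (a : Fin n → Fin n → ℝ) (x : Cube n) :
    pol b a x = lin b x + qd (symm a) x := by
  rw [pol, qd_symm]; rfl

lemma vari_eq {n : ℕ} (b : Fin n → ℝ) (a : Fin n → Fin n → ℝ) :
    vari b a = 1 / 2 * ∑ i, ∑ j, hat b (symm a) i j ^ 2 := by
  rw [vari, sq_hat, ← sq_symm]; ring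

/-- **Scalar inequality** for all polynomials of degree at most `2`. -/
theorem scalar_ineq {n : ℕ} (c : ℝ) (b : Fin n → ℝ) (a : Fin n → Fin n → ℝ) :
    vari b a ≤ 4 * (((2 : ℝ) ^ n)⁻¹ * ∑ x, |c + pol b a x|) ^ 2 := by
  have h1 := main_ineq (n + 1) (hat b (symm a)) c (hat_symZ _ _ (symm_symZ a))
  have h2 : ex (fun x => |c + qd (hat b (symm a)) x|)
      = ((2 : ℝ) ^ n)⁻¹ * ∑ x, |c + pol b a x| := by
    unfold ex
    rw [sum_hat b (symm a) (fun t => |c + t|)]
    simp_rw [pol_eq]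
    rw [pow_succ, mul_inv]
    ring
  rw [h2] at h1
  rw [vari_eq]
  linarith

/-- **Parseval** for all polynomials of degree at most `2`. -/
theorem scalar_parseval {n : ℕ} (b : Fin n → ℝ) (a : Fin n → Fin n → ℝ) :
    ((2 : ℝ) ^ n)⁻¹ * ∑ x, (pol b a x) ^ 2 = vari b a := by
  have h1 := res_second (hat b (symm a)) (hat_symZ _ _ (symm_symZ a))
  rw [sum_hat b (symm a) (fun t => t ^ 2), ← vari_eq] at h1
  simp_rw [pol_eq]
  have hN : (0 : ℝ) < 2 ^ n := by positivity
  rw [inv_mul_eq_iff_eq_mul₀ hN.ne']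
  have h3 : (2 : ℝ) ^ (n + 1) = 2 * 2 ^ n := by rw [pow_succ]; ring
  rw [h3] at h1
  linarith

end Y840HQ
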