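import Mathlib
set_option autoImplicit false

/-!
# From scalar `L¹` inequalities to inequalities in Hilbert spaces
-/

namespace Y840HQ

open MeasureTheory Metric

section phi

variable {E : Type*} [NormedAddCommGroup E] [InnerProductSpace ℝ E] [FiniteDimensional ℝ E]
  [MeasurableSpace E] [BorelSpace E]

/-- the average over the unit ball -/
noncomputable def phi (v : E) : ℝ := ∫ y in ball (0 : E) 1, |inner ℝ y v|

lemma intg (v : E) : IntegrableOn (fun y : E => |inner ℝ y v|) (ball (0 : E) 1) := by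
  have hc : Continuous (fun y : E => |inner ℝ y v|) := by fun_prop
  exact (hc.continuousOn.integrableOn_compact (isCompact_closedBall (0 : E) 1)).mono_set
    ball_subset_closedBall

lemma phi_smul (t : ℝ) (v : E) : phi (t • v) = |t| * phi v := by
  unfold phi
  rw [← integral_const_mul]
  refine integral_congr_ae (Filter.Eventually.of_forall fun y => ?_)
  simp only [inner_smul_right, abs_mul]

lemma phi_iso (R : E ≃ₗᵢ[ℝ] E) (v : E) : phi (R v) = phi v := by
  unfold phi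
  have h1 := (R.measurePreserving).setIntegral_preimage_emb
    (R.toHomeomorph.measurableEmbedding) (fun y => |inner ℝ y (R v)|) (ball (0 : E) 1)
  have h2 : (R ⁻¹' ball (0 : E) 1) = ball (0 : E) 1 := by
    ext y; simp
  rw [h2] at h1
  rw [← h1]
  refine integral_congr_ae (Filter.Eventually.of_forall fun y => ?_)
  simp

lemma phi_norm {u v : E} (h : ‖u‖ = ‖v‖) : phi u = phi v := by
  have h1 := Submodule.reflection_sub h
  rw [← h1, phi_iso]

lemma phi_pos {v : E} (hv : v ≠ 0) : 0 < phi v := by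
  unfold phi
  have hc : Continuous (fun y : E => |inner ℝ y v|) := by fun_prop
  rw [setIntegral_pos_iff_support_of_nonneg_ae
    (Filter.Eventually.of_forall fun y => abs_nonneg _) (intg v)]
  have ho : IsOpen (Function.support (fun y : E => |inner ℝ y v|) ∩ ball (0 : E) 1) :=
    (hc.isOpen_support).inter isOpen_ball
  refine ho.measure_pos _ ⟨(1 / (2 * ‖v‖)) • v, ?_, ?_⟩
  · have hn : (0 : ℝ) < ‖v‖ := norm_pos_iff.2 hv
    simp only [Function.mem_support, inner_smul_left, real_inner_self_eq_norm_sq]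
    simp [hv]
  · have hn : (0 : ℝ) < ‖v‖ := norm_pos_iff.2 hv
    simp only [mem_ball, dist_zero_right, norm_smul, norm_div, norm_one, norm_mul, norm_norm]
    have : ‖(2 : ℝ)‖ = 2 := by norm_num
    rw [this]
    field_simp
    norm_num

/-- rotation invariance: the average of `|⟪y, v⟫|` is proportional to the norm of `v` -/
lemma exists_kappa [Nontrivial E] : ∃ κ : ℝ, 0 < κ ∧ ∀ v : E, phi v = κ * ‖v‖ := by
  obtain ⟨e, he⟩ := exists_ne (0 : E)
  have hn : (0 : ℝ) < ‖e‖ := norm_pos_iff.2 he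
  refine ⟨phi e / ‖e‖, div_pos (phi_pos he) hn, fun v => ?_⟩
  have h1 : ‖v‖ = ‖(‖v‖ / ‖e‖) • e‖ := by
    rw [norm_smul, norm_div, norm_norm, norm_norm]
    field_simp
  rw [phi_norm h1, phi_smul, abs_of_nonneg (by positivity)]
  ring

end phi

/-- Weighted form of the inequality between the `ℓ²`-norm of `L¹`-norms and the `L¹`-norm of
`ℓ²`-norms. -/
lemma l1_transfer {Ω M X : Type*} [MeasurableSpace Ω] (μ : Measure Ω) [Fintype M] [Fintype X]
    (u : M → Ω → ℝ) (h : X → Ω → ℝ) (C : ℝ)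
    (hu : ∀ m, Integrable (u m) μ) (hh : ∀ x, Integrable (h x) μ)
    (H : ∀ ω, Real.sqrt (∑ m, u m ω ^ 2) ≤ C * ∑ x, |h x ω|) :
    Real.sqrt (∑ m, (∫ ω, |u m ω| ∂μ) ^ 2) ≤ C * ∑ x, ∫ ω, |h x ω| ∂μ := by
  set p : M → ℝ := fun m => ∫ ω, |u m ω| ∂μ with hp
  set V : ℝ := Real.sqrt (∑ m, p m ^ 2) with hV
  have hV0 : 0 ≤ V := Real.sqrt_nonneg _
  have hp0 : ∀ m, 0 ≤ p m := fun m => integral_nonneg fun ω => abs_nonneg _
  have hVsq : V ^ 2 = ∑ m, p m ^ 2 := Real.sq_sqrt (Finset.sum_nonneg fun m _ => sq_nonneg _)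
  have h1 : ∀ ω, ∑ m, p m * |u m ω| ≤ V * (C * ∑ x, |h x ω|) := by
    intro ω
    have h2 : ∑ m, p m * |u m ω| ≤ Real.sqrt (∑ m, p m ^ 2) * Real.sqrt (∑ m, |u m ω| ^ 2) :=
      Real.sum_mul_le_sqrt_mul_sqrt _ _ _
    simp only [sq_abs] at h2
    exact h2.trans (mul_le_mul_of_nonneg_left (H ω) hV0)
  have h3 : ∫ ω, ∑ m, p m * |u m ω| ∂μ ≤ ∫ ω, V * (C * ∑ x, |h x ω|) ∂μ := by
    refine integral_mono ?_ ?_ h1
    · exact integrable_finset_sum _ fun m _ => ((hu m).abs).const_mul _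
    · exact ((integrable_finset_sum _ fun x _ => (hh x).abs).const_mul _).const_mul _
  rw [integral_finset_sum _ fun m _ => ((hu m).abs).const_mul _, integral_const_mul,
    integral_const_mul, integral_finset_sum _ fun x _ => (hh x).abs] at h3
  simp_rw [integral_const_mul] at h3
  have h4 : ∑ m, p m * ∫ ω, |u m ω| ∂μ = V ^ 2 := by
    rw [hVsq]
    exact Finset.sum_congr rfl fun m _ => (sq _).symm
  rw [h4] at h3
  rcases hV0.eq_or_lt with h0 | h0
  · rw [← h0]
    -- the right-hand side is nonnegative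
    have h5 : 0 ≤ ∫ ω, C * ∑ x, |h x ω| ∂μ :=
      integral_nonneg fun ω => (Real.sqrt_nonneg _).trans (H ω)
    rwa [integral_const_mul, integral_finset_sum _ fun x _ => (hh x).abs] at h5
  · nlinarith

/-- **Transfer principle** (finite dimension). -/
lemma transfer_fd {E M X : Type*} [NormedAddCommGroup E] [InnerProductSpace ℝ E]
    [FiniteDimensional ℝ E] [Fintype M] [Fintype X] (v : M → E) (g : X → E) (C : ℝ)
    (H : ∀ y : E, Real.sqrt (∑ m, (inner ℝ y (v m)) ^ 2) ≤ C * ∑ x, |inner ℝ y (g x)|) :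
    Real.sqrt (∑ m, ‖v m‖ ^ 2) ≤ C * ∑ x, ‖g x‖ := by
  rcases subsingleton_or_nontrivial E with hE | hE
  · have h1 : ∀ m, v m = 0 := fun m => Subsingleton.elim _ _
    have h2 : ∀ x, g x = 0 := fun m => Subsingleton.elim _ _
    simp [h1, h2]
  · letI : MeasurableSpace E := borel E
    haveI : BorelSpace E := ⟨rfl⟩
    obtain ⟨κ, hκ, hphi⟩ := exists_kappa (E := E)
    have hi : ∀ w : E, Integrable (fun y : E => inner ℝ y w) (volume.restrict (ball (0 : E) 1)) := by
      intro w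
      have hc : Continuous (fun y : E => inner ℝ y w) := by fun_prop
      exact (hc.continuousOn.integrableOn_compact (isCompact_closedBall (0 : E) 1)).mono_set
        ball_subset_closedBall
    have h1 := l1_transfer (volume.restrict (ball (0 : E) 1)) (fun m y => inner ℝ y (v m))
      (fun x y => inner ℝ y (g x)) C (fun m => hi _) (fun x => hi _) H
    have h2 : ∀ w : E, ∫ y in ball (0 : E) 1, |inner ℝ y w| = κ * ‖w‖ := hphi
    simp_rw [h2] at h1
    have h3 : ∑ m, (κ * ‖v m‖) ^ 2 = κ ^ 2 * ∑ m, ‖v m‖ ^ 2 := by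
      rw [Finset.mul_sum]
      exact Finset.sum_congr rfl fun m _ => by ring
    rw [h3, Real.sqrt_mul (sq_nonneg κ), Real.sqrt_sq hκ.le, ← Finset.mul_sum] at h1
    have h4 : κ * Real.sqrt (∑ m, ‖v m‖ ^ 2) ≤ κ * (C * ∑ x, ‖g x‖) := by linarith
    exact le_of_mul_le_mul_left h4 hκ

/-- **Transfer principle.** -/
theorem transfer {E M X : Type*} [NormedAddCommGroup E] [InnerProductSpace ℝ E]
    [Fintype M] [Fintype X] (v : M → E) (g : X → E) (C : ℝ)
    (H : ∀ y : E, Real.sqrt (∑ m, (inner ℝ y (v m)) ^ 2) ≤ C * ∑ x, |inner ℝ y (g x)|) :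
    Real.sqrt (∑ m, ‖v m‖ ^ 2) ≤ C * ∑ x, ‖g x‖ := by
  classical
  set K : Submodule ℝ E := Submodule.span ℝ (Set.range v ∪ Set.range g) with hK
  haveI : FiniteDimensional ℝ K :=
    FiniteDimensional.span_of_finite ℝ ((Set.finite_range v).union (Set.finite_range g))
  have hv : ∀ m, v m ∈ K := fun m => Submodule.subset_span (Or.inl ⟨m, rfl⟩)
  have hg : ∀ x, g x ∈ K := fun x => Submodule.subset_span (Or.inr ⟨x, rfl⟩)
  exact transfer_fd (fun m => (⟨v m, hv m⟩ : K)) (fun x => (⟨g x, hg x⟩ : K)) C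
    (fun y => H (y : E))

/-- **Transfer of quadratic identities.** -/
theorem transfer_sq {E M X : Type*} [NormedAddCommGroup E] [InnerProductSpace ℝ E]
    [Fintype M] [Fintype X] (v : M → E) (g : X → E) (C : ℝ)
    (H : ∀ y : E, ∑ m, (inner ℝ y (v m)) ^ 2 = C * ∑ x, (inner ℝ y (g x)) ^ 2) :
    ∑ m, ‖v m‖ ^ 2 = C * ∑ x, ‖g x‖ ^ 2 := by
  classical
  set K : Submodule ℝ E := Submodule.span ℝ (Set.range v ∪ Set.range g) with hK
  haveI : FiniteDimensional ℝ K :=
    FiniteDimensional.span_of_finite ℝ ((Set.finite_range v).union (Set.finite_range g))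
  have hv : ∀ m, v m ∈ K := fun m => Submodule.subset_span (Or.inl ⟨m, rfl⟩)
  have hg : ∀ x, g x ∈ K := fun x => Submodule.subset_span (Or.inr ⟨x, rfl⟩)
  let B := stdOrthonormalBasis ℝ K
  have h1 : ∀ (w : E) (hw : w ∈ K), ‖w‖ ^ 2 = ∑ k, (inner ℝ ((B k : K) : E) w) ^ 2 := by
    intro w hw
    have h2 := B.sum_sq_norm_inner_right (⟨w, hw⟩ : K)
    have h3 : ‖(⟨w, hw⟩ : K)‖ = ‖w‖ := rfl
    rw [h3] at h2
    rw [← h2]
    refine Finset.sum_congr rfl fun k _ => ?_
    rw [Real.norm_eq_abs, sq_abs]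
    rfl
  have h4 : ∀ m, ‖v m‖ ^ 2 = ∑ k, (inner ℝ ((B k : K) : E) (v m)) ^ 2 := fun m => h1 _ (hv m)
  have h5 : ∀ x, ‖g x‖ ^ 2 = ∑ k, (inner ℝ ((B k : K) : E) (g x)) ^ 2 := fun x => h1 _ (hg x)
  simp_rw [h4, h5]
  rw [Finset.sum_comm, Finset.sum_comm (f := fun x k => (inner ℝ ((B k : K) : E) (g x)) ^ 2),
    Finset.mul_sum]
  exact Finset.sum_congr rfl fun k _ => H _

end Y840HQ
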